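import Mathlib
import Pool.Agent.H33R3.HSFinal
import Pool.Agent.H33R3.HSLight

set_option autoImplicit false

/-!
# Hilbert-Schmidt Hankel operators with conjugate holomorphic symbols on Reinhardt domains

For `n ≥ 2` and a bounded Reinhardt domain `Ω ⊆ ℂⁿ` (no pseudoconvexity, no completeness), a
Hilbert-Schmidt Hankel operator `H_{f̄}` with `f` holomorphic on `Ω` vanishes; in fact `f` is
constant.
-/

namespace Pool.Agent.Results.MP_dc9318_an.NoHilbertSchmidtHankel

open MeasureTheory Set Pool.Agent.H33R3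
open scoped ComplexConjugate ENNReal

/-- Sanity check: for open `Ω` the Bergman space is closed, and `HSL.compl Ω` is `I - P`, where
`P` is the orthogonal projection of `L²(Ω)` onto the Bergman space. -/
theorem compl_eq {n : ℕ} {Ω : Set (Fin n → ℂ)} (hΩ : IsOpen Ω) :
    ∃ _ : (HSL.bergman Ω).HasOrthogonalProjection, ∀ u : HSL.L2 Ω,
      HSL.compl Ω u = u - (HSL.bergman Ω).starProjection u := by
  have h1 : IsClosed (HSL.bergman Ω : Set (HSL.L2 Ω)) := HS.isClosed_bergman hΩ
  have h2 : CompleteSpace (HSL.bergman Ω) := h1.completeSpace_coe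
  refine ⟨inferInstance, fun u => ?_⟩
  unfold HSL.compl
  rw [Submodule.starProjection_orthogonal]
  rfl

theorem result : ∀ n : ℕ, 2 ≤ n → ∀ Ω : Set (Fin n → ℂ), HS.IsReinhardtDomain Ω →
    Bornology.IsBounded Ω → ∀ f : (Fin n → ℂ) → ℂ, DifferentiableOn ℂ f Ω →
      HSL.IsHilbertSchmidtHankel Ω f →
        (∃ c : ℂ, ∀ z ∈ Ω, f z = c) ∧ ∀ g : HSL.A2 Ω, HSL.hankel Ω f g = 0 := by
  intro n hn Ω hR hb f hf hHS
  have hHS' : HS.IsHilbertSchmidtHankel Ω f := hHS
  obtain ⟨hdense, T, hT, ι, e, hs⟩ := hHS'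
  have hconst : ∃ c : ℂ, ∀ z ∈ Ω, f z = c := by
    rcases HS.const_or_component hR.isOpen hR.isConnected.nonempty hR.isConnected.isPreconnected
      hR.inv hf with h | ⟨β, hβ, c, hc0, hc⟩
    · exact h
    · exfalso
      have : Nontrivial (Fin n) := Fin.nontrivial_iff_two_le.2 hn
      have hne : (Ωᶜ).Nonempty := by
        rw [nonempty_compl]
        intro h
        rw [h] at hb
        exact NormedSpace.unbounded_univ ℂ (Fin n → ℂ) hb
      exact HS.not_hs hb hR hne hf hdense hT hc0 hc hn hβ e hs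
  refine ⟨hconst, fun g => ?_⟩
  obtain ⟨c, hc⟩ := hconst
  exact HS.hankel_const hR.isOpen hc g

end Pool.Agent.Results.MP_dc9318_an.NoHilbertSchmidtHankel
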